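import Pool.Agent.helper53.ORT.Spec

/-!
# Row ORT/KDP: the polynomials of `ζ + ζ⁻¹`
-/

set_option autoImplicit false

namespace Pool.Agent.ORT

open Module Pool.Agent.GS

/-- the polynomials `1 + ∑ (ζ^i + ζ^(-i))` in `ζ + ζ⁻¹` -/
noncomputable def KDP_G (F : Type) [Field F] : ℕ → Polynomial F
  | 0 => 1
  | 1 => Polynomial.X + 1
  | (n + 2) => Polynomial.X * KDP_G F (n + 1) - KDP_G F n

theorem KDP_G_two (F : Type) [Field F] (n : ℕ) :
    KDP_G F (n + 2) = Polynomial.X * KDP_G F (n + 1) - KDP_G F n := rfl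

theorem KDP_monic (F : Type) [Field F] (n : ℕ) :
    ((KDP_G F n).Monic ∧ (KDP_G F n).natDegree = n) ∧
      ((KDP_G F (n + 1)).Monic ∧ (KDP_G F (n + 1)).natDegree = n + 1) := by
  induction n with
  | zero =>
    have h1 : KDP_G F (0 + 1) = Polynomial.X + Polynomial.C (1 : F) := by
      rw [Polynomial.C_1]; rfl
    have h0 : KDP_G F 0 = 1 := rfl
    refine ⟨⟨?_, ?_⟩, ?_, ?_⟩
    · rw [h0]; exact Polynomial.monic_one
    · rw [h0]; exact Polynomial.natDegree_one
    · rw [h1]; exact Polynomial.monic_X_add_C 1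
    · rw [h1]; exact Polynomial.natDegree_X_add_C 1
  | succ n ih =>
    obtain ⟨⟨a1, a2⟩, b1, b2⟩ := ih
    refine ⟨⟨b1, b2⟩, ?_⟩
    have h1 : (Polynomial.X * KDP_G F (n + 1)).Monic := Polynomial.monic_X.mul b1
    have h2 : (Polynomial.X * KDP_G F (n + 1)).natDegree = n + 2 := by
      rw [Polynomial.Monic.natDegree_mul Polynomial.monic_X b1, Polynomial.natDegree_X, b2]
      omega
    have h3 : (KDP_G F n).natDegree < (Polynomial.X * KDP_G F (n + 1)).natDegree := by
      rw [h2, a2]; omega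
    have h4 : (KDP_G F n).degree < (Polynomial.X * KDP_G F (n + 1)).degree :=
      Polynomial.degree_lt_degree h3
    rw [KDP_G_two]
    refine ⟨h1.sub_of_left h4, ?_⟩
    rw [Polynomial.natDegree_sub_eq_left_of_natDegree_lt h3, h2]

theorem KDP_sum {F V : Type} [Field F] [AddCommGroup V] [Module F V] (T T' S : Module.End F V)
    (h : T * T' = 1) (hS : S = T + T') (n : ℕ) :
    T ^ n * Polynomial.aeval S (KDP_G F n) = ∑ i ∈ Finset.range (2 * n + 1), T ^ i ∧
    T ^ (n + 1) * Polynomial.aeval S (KDP_G F (n + 1)) =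
      ∑ i ∈ Finset.range (2 * n + 3), T ^ i := by
  induction n with
  | zero =>
    have h1 : KDP_G F (0 + 1) = Polynomial.X + 1 := rfl
    have h0 : KDP_G F 0 = 1 := rfl
    refine ⟨?_, ?_⟩
    · rw [h0]; simp
    · rw [h1, map_add, Polynomial.aeval_X, map_one, hS]
      simp only [Nat.mul_zero, Finset.sum_range_succ, Finset.sum_range_zero, pow_zero,
        pow_one, pow_two, mul_add, mul_one, h, zero_add]
      abel
  | succ n ih =>
    obtain ⟨a, b⟩ := ih
    have e : 2 * (n + 1) + 1 = 2 * n + 3 := by ring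
    rw [e]
    refine ⟨b, ?_⟩
    have hT : T ^ (n + 2) * S = T ^ 2 * T ^ (n + 1) + T ^ (n + 1) := by
      rw [hS, mul_add, ← pow_add, ← pow_succ]
      congr 1
      · congr 1; omega
      · rw [pow_succ T (n + 1), mul_assoc, h, mul_one]
    have h2 : T ^ (n + 2) = T ^ 2 * T ^ n := by rw [← pow_add]; congr 1; omega
    have key : T ^ (n + 2) * Polynomial.aeval S (KDP_G F (n + 2)) =
        T ^ 2 * (∑ i ∈ Finset.range (2 * n + 3), T ^ i) + (∑ i ∈ Finset.range (2 * n + 3), T ^ i) -
          T ^ 2 * ∑ i ∈ Finset.range (2 * n + 1), T ^ i := by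
      rw [KDP_G_two, map_sub, map_mul, Polynomial.aeval_X, mul_sub, ← mul_assoc, hT, add_mul,
        mul_assoc (T ^ 2), b, h2, mul_assoc (T ^ 2), a]
    show T ^ (n + 2) * Polynomial.aeval S (KDP_G F (n + 2)) = _
    rw [key]
    have e2 : 2 * (n + 1) + 3 = (2 * n + 3) + 1 + 1 := by ring
    rw [e2, Finset.sum_range_succ _ (2 * n + 3 + 1), Finset.sum_range_succ _ (2 * n + 3)]
    have e3 : ∑ i ∈ Finset.range (2 * n + 3), T ^ i =
        (∑ i ∈ Finset.range (2 * n + 1), T ^ i) + T ^ (2 * n + 1) + T ^ (2 * n + 2) := by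
      rw [show 2 * n + 3 = (2 * n + 1) + 1 + 1 by ring, Finset.sum_range_succ, Finset.sum_range_succ]
    have e4 : T ^ 2 * T ^ (2 * n + 1) = T ^ (2 * n + 3) := by rw [← pow_add]; congr 1; omega
    have e5 : T ^ 2 * T ^ (2 * n + 2) = T ^ (2 * n + 3 + 1) := by rw [← pow_add]; congr 1; omega
    have e6 : T ^ 2 * ∑ i ∈ Finset.range (2 * n + 3), T ^ i =
        T ^ 2 * (∑ i ∈ Finset.range (2 * n + 1), T ^ i) + T ^ (2 * n + 3) +
          T ^ (2 * n + 3 + 1) := by
      rw [e3, mul_add, mul_add, e4, e5]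
    rw [e6]
    abel

/-- a linear permutation as a linear map -/
def KDP_T {F V : Type} [Field F] [AddCommGroup V] [Module F V] (k : Equiv.Perm V) (hk : Lin F k) :
    Module.End F V where
  toFun := k
  map_add' := hk.1
  map_smul' := hk.2

theorem KDP : KDP_stmt := by
  refine ⟨fun F _ n => KDP_G F n, ?_, fun F _ n => (KDP_monic F n).1, ?_⟩
  · intro F _
    show KDP_G F 3 = _
    have h2 : KDP_G F 2 = Polynomial.X * KDP_G F 1 - KDP_G F 0 := rfl
    have h3 : KDP_G F 3 = Polynomial.X * KDP_G F 2 - KDP_G F 1 := rfl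
    have h1 : KDP_G F 1 = Polynomial.X + 1 := rfl
    have h0 : KDP_G F 0 = 1 := rfl
    rw [h3, h2, h1, h0]
    ring
  · intro F V _ _ _ k hk S U n hS hpow hU hfix u hu
    have hk' : Lin F k⁻¹ := by
      refine ⟨fun x y => ?_, fun c x => ?_⟩
      · apply k.injective
        rw [hk.1]
        simp
      · apply k.injective
        rw [hk.2]
        simp
    set T : Module.End F V := KDP_T k hk with hT
    set T' : Module.End F V := KDP_T k⁻¹ hk' with hT'
    have hTT : T * T' = 1 := by
      ext v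
      show k (k⁻¹ v) = v
      simp
    have hTT' : T' * T = 1 := by
      ext v
      show k⁻¹ (k v) = v
      simp
    have hSS : (S : Module.End F V) = T + T' := by
      ext v
      rw [hS]
      rfl
    have hTk : ∀ (m : ℕ) (v : V), (T ^ m) v = (k ^ m) v := by
      intro m
      induction m with
      | zero => intro v; rfl
      | succ m ih =>
        intro v
        rw [pow_succ, pow_succ]
        show (T ^ m) (T v) = (k ^ m) (k v)
        rw [ih]
        rfl
    have hTp : T ^ (2 * n + 1) = 1 := by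
      ext v
      rw [hTk, hpow]
      rfl
    have hsum := (KDP_sum T T' S hTT hSS n).1
    set E : Module.End F V := ∑ i ∈ Finset.range (2 * n + 1), T ^ i with hE
    have hEU : E u ∈ U := by
      rw [hE, LinearMap.sum_apply]
      have hall : ∀ i : ℕ, (k ^ i) u ∈ U := by
        intro i
        induction i with
        | zero => simpa using hu
        | succ i ih =>
          rw [pow_succ']
          exact hU _ ih
      refine Submodule.sum_mem _ fun i _ => ?_
      rw [hTk]
      exact hall i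
    have hEf : k (E u) = E u := by
      have h1 : (T - 1) * E = 0 := by
        rw [hE, mul_geom_sum, hTp, sub_self]
      have h2 : ((T - 1) * E) u = 0 := by rw [h1]; rfl
      have h3 : T (E u) - E u = 0 := h2
      exact sub_eq_zero.mp h3
    have hE0 : E u = 0 := hfix _ hEU hEf
    have hz : (T ^ n * Polynomial.aeval S (KDP_G F n)) u = 0 := by rw [hsum]; exact hE0
    have hz' : (T ^ n) ((Polynomial.aeval S (KDP_G F n)) u) = 0 := hz
    rw [hTk] at hz'
    have h0 : (k ^ n) 0 = 0 := by
      rw [← hTk]; exact map_zero _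
    rw [← h0] at hz'
    exact (k ^ n).injective hz'

end Pool.Agent.ORT
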